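import Pool.Agent.helper62.RP.Spec

set_option autoImplicit false

/-!
# Row rp:HA2 (MP_07c750_an)
-/

open Polynomial Filter
open Pool.Agent.QU

namespace Pool.Agent.RP

lemma HA2_tri {α : Type} (P C R : Finset α) (F U W : α × α → ℝ) :
    ∑ p ∈ P, ∑ c ∈ C, ∑ r ∈ R, F (p, c) * U (c, r) * W (p, r) ≤
      Real.sqrt (∑ y ∈ P ×ˢ C, F y ^ 2) * Real.sqrt (∑ y ∈ C ×ˢ R, U y ^ 2) *
        Real.sqrt (∑ y ∈ P ×ˢ R, W y ^ 2) := by
  have h1 : ∑ p ∈ P, ∑ c ∈ C, ∑ r ∈ R, F (p, c) * U (c, r) * W (p, r) =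
      ∑ y ∈ P ×ˢ R, (∑ c ∈ C, F (y.1, c) * U (c, y.2)) * W y := by
    rw [Finset.sum_product]
    refine Finset.sum_congr rfl fun p _ => ?_
    rw [Finset.sum_comm]
    refine Finset.sum_congr rfl fun r _ => ?_
    rw [Finset.sum_mul]
  have h2 := Real.sum_mul_le_sqrt_mul_sqrt (P ×ˢ R)
    (fun y => ∑ c ∈ C, F (y.1, c) * U (c, y.2)) W
  have h3 : ∑ y ∈ P ×ˢ R, (∑ c ∈ C, F (y.1, c) * U (c, y.2)) ^ 2 ≤
      (∑ y ∈ P ×ˢ C, F y ^ 2) * (∑ y ∈ C ×ˢ R, U y ^ 2) := by
    have h4 : ∀ y ∈ P ×ˢ R, (∑ c ∈ C, F (y.1, c) * U (c, y.2)) ^ 2 ≤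
        (∑ c ∈ C, F (y.1, c) ^ 2) * (∑ c ∈ C, U (c, y.2) ^ 2) := by
      intro y _
      exact Finset.sum_mul_sq_le_sq_mul_sq C (fun c => F (y.1, c)) (fun c => U (c, y.2))
    refine (Finset.sum_le_sum h4).trans (le_of_eq ?_)
    rw [Finset.sum_product, Finset.sum_product, Finset.sum_product_right, Finset.sum_mul_sum]
  rw [h1]
  refine h2.trans ?_
  have h5 : Real.sqrt (∑ y ∈ P ×ˢ C, F y ^ 2) * Real.sqrt (∑ y ∈ C ×ˢ R, U y ^ 2) =
      Real.sqrt ((∑ y ∈ P ×ˢ C, F y ^ 2) * (∑ y ∈ C ×ˢ R, U y ^ 2)) :=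
    (Real.sqrt_mul (Finset.sum_nonneg fun _ _ => sq_nonneg _) _).symm
  rw [h5]
  exact mul_le_mul_of_nonneg_right (Real.sqrt_le_sqrt h3) (Real.sqrt_nonneg _)

open Classical in
lemma HA2_ind (D Q : Finset (F2 × F2)) (g : F2 → ℝ) (φ : F2 × F2 → F2) (hφ : Set.InjOn φ Q)
    (S' : Finset F2) (hS : ∀ y ∈ Q, φ y ∈ S') :
    ∑ y ∈ D, (if y ∈ Q then g (φ y) else 0) ^ 2 ≤ ∑ s ∈ S', g s ^ 2 := by
  have h1 : ∀ y ∈ D, (if y ∈ Q then g (φ y) else 0) ^ 2 = if y ∈ Q then g (φ y) ^ 2 else 0 := by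
    intro y _
    split_ifs
    · rfl
    · ring
  rw [Finset.sum_congr rfl h1, ← Finset.sum_filter]
  calc ∑ y ∈ D.filter (fun y => y ∈ Q), g (φ y) ^ 2 ≤ ∑ y ∈ Q, g (φ y) ^ 2 := by
        refine Finset.sum_le_sum_of_subset_of_nonneg ?_ fun _ _ _ => sq_nonneg _
        intro y hy
        exact (Finset.mem_filter.1 hy).2
    _ = ∑ s ∈ Q.image φ, g s ^ 2 := by
        rw [Finset.sum_image]
        exact hφ
    _ ≤ ∑ s ∈ S', g s ^ 2 := by
        refine Finset.sum_le_sum_of_subset_of_nonneg ?_ fun _ _ _ => sq_nonneg _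
        intro s hs
        obtain ⟨y, hy, rfl⟩ := Finset.mem_image.1 hs
        exact hS y hy

theorem HA2 (h1 : HA1_stmt) : HA2_stmt := by
  classical
  intro f u z S T k Z hf hu hz hZ hz2 hSk
  choose p0 c0 r0 hs ht hns hnt hnst using h1.1
  -- functions on pairs
  set pp : F2 × F2 → F2 := fun x => p0 x.1 x.2 with hpp
  set cc : F2 × F2 → F2 := fun x => c0 x.1 x.2 with hcc
  set rr : F2 × F2 → F2 := fun x => r0 x.1 x.2 with hrr
  have es : ∀ x : F2 × F2, x.1 = pp x * cc x := fun x => hs x.1 x.2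
  have et : ∀ x : F2 × F2, x.2 = (cc x)⁻¹ * rr x := fun x => ht x.1 x.2
  have est : ∀ x : F2 × F2, x.1 * x.2 = pp x * rr x := by
    intro x
    rw [es x, et x]
    group
  have ns : ∀ x : F2 × F2, x.1.norm = (pp x).norm + (cc x).norm := fun x => hns x.1 x.2
  have nt : ∀ x : F2 × F2, x.2.norm = (cc x).norm + (rr x).norm := fun x => hnt x.1 x.2
  have nst : ∀ x : F2 × F2, (x.1 * x.2).norm = (pp x).norm + (rr x).norm :=
    fun x => hnst x.1 x.2
  -- the pairs with `|c| = i`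
  set A : ℕ → Finset (F2 × F2) := fun i => (S ×ˢ T).filter (fun x => (cc x).norm = i) with hA
  have key : ∀ i ∈ Finset.range (k + 1),
      ∑ x ∈ A i, f x.1 * u x.2 * z (x.1 * x.2) ≤
        Real.sqrt (∑ s ∈ S, f s ^ 2) * Real.sqrt (∑ t ∈ T, u t ^ 2) * Z := by
    intro i _
    have hAi : ∀ x ∈ A i, x.1 ∈ S ∧ x.2 ∈ T ∧ (cc x).norm = i ∧ (pp x).norm + i = k := by
      intro x hx
      rw [hA, Finset.mem_filter, Finset.mem_product] at hx
      refine ⟨hx.1.1, hx.1.2, hx.2, ?_⟩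
      have h2 := ns x
      rw [hSk _ hx.1.1, hx.2] at h2
      exact h2.symm
    set QF := (A i).image (fun x => (pp x, cc x)) with hQF
    set QU := (A i).image (fun x => (cc x, rr x)) with hQU
    set QW := (A i).image (fun x => (pp x, rr x)) with hQW
    set F : F2 × F2 → ℝ := fun y => if y ∈ QF then f (y.1 * y.2) else 0 with hF
    set U : F2 × F2 → ℝ := fun y => if y ∈ QU then u (y.1⁻¹ * y.2) else 0 with hU
    set W : F2 × F2 → ℝ := fun y => if y ∈ QW then z (y.1 * y.2) else 0 with hW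
    have hF0 : ∀ y, 0 ≤ F y := by
      intro y
      simp only [hF]
      split_ifs
      · exact hf _
      · exact le_rfl
    have hU0 : ∀ y, 0 ≤ U y := by
      intro y
      simp only [hU]
      split_ifs
      · exact hu _
      · exact le_rfl
    have hW0 : ∀ y, 0 ≤ W y := by
      intro y
      simp only [hW]
      split_ifs
      · exact hz _
      · exact le_rfl
    have e1 : ∑ x ∈ A i, f x.1 * u x.2 * z (x.1 * x.2) =
        ∑ x ∈ A i, F (pp x, cc x) * U (cc x, rr x) * W (pp x, rr x) := by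
      refine Finset.sum_congr rfl fun x hx => ?_
      have m1 : (pp x, cc x) ∈ QF := Finset.mem_image_of_mem _ hx
      have m2 : (cc x, rr x) ∈ QU := Finset.mem_image_of_mem _ hx
      have m3 : (pp x, rr x) ∈ QW := Finset.mem_image_of_mem _ hx
      have a1 : F (pp x, cc x) = f x.1 := by
        simp only [hF]
        rw [if_pos m1, ← es x]
      have a2 : U (cc x, rr x) = u x.2 := by
        simp only [hU]
        rw [if_pos m2, ← et x]
      have a3 : W (pp x, rr x) = z (x.1 * x.2) := by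
        simp only [hW]
        rw [if_pos m3, ← est x]
      rw [a1, a2, a3]
    have e2 : ∑ x ∈ A i, F (pp x, cc x) * U (cc x, rr x) * W (pp x, rr x) =
        ∑ y ∈ (A i).image (fun x => (pp x, cc x, rr x)),
          F (y.1, y.2.1) * U (y.2.1, y.2.2) * W (y.1, y.2.2) := by
      rw [Finset.sum_image]
      intro x _ x' _ hxx
      simp only [Prod.mk.injEq] at hxx
      refine Prod.ext ?_ ?_
      · rw [es x, es x', hxx.1, hxx.2.1]
      · rw [et x, et x', hxx.2.1, hxx.2.2]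
    have e3 : ∑ y ∈ (A i).image (fun x => (pp x, cc x, rr x)),
          F (y.1, y.2.1) * U (y.2.1, y.2.2) * W (y.1, y.2.2) ≤
        ∑ p ∈ (A i).image pp, ∑ c ∈ (A i).image cc, ∑ r ∈ (A i).image rr,
          F (p, c) * U (c, r) * W (p, r) := by
      have e4 : ∑ p ∈ (A i).image pp, ∑ c ∈ (A i).image cc, ∑ r ∈ (A i).image rr,
          F (p, c) * U (c, r) * W (p, r) =
          ∑ y ∈ (A i).image pp ×ˢ ((A i).image cc ×ˢ (A i).image rr),
            F (y.1, y.2.1) * U (y.2.1, y.2.2) * W (y.1, y.2.2) := by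
        rw [Finset.sum_product]
        refine Finset.sum_congr rfl fun p _ => ?_
        rw [Finset.sum_product]
      rw [e4]
      refine Finset.sum_le_sum_of_subset_of_nonneg ?_ fun y _ _ =>
        mul_nonneg (mul_nonneg (hF0 _) (hU0 _)) (hW0 _)
      intro y hy
      obtain ⟨x, hx, rfl⟩ := Finset.mem_image.1 hy
      simp only [Finset.mem_product]
      exact ⟨Finset.mem_image_of_mem _ hx, Finset.mem_image_of_mem _ hx,
        Finset.mem_image_of_mem _ hx⟩
    have b1 : ∑ y ∈ (A i).image pp ×ˢ (A i).image cc, F y ^ 2 ≤ ∑ s ∈ S, f s ^ 2 := by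
      refine HA2_ind _ QF f (fun y => y.1 * y.2) ?_ S ?_
      · intro y hy y' hy' hyy
        obtain ⟨x, hx, rfl⟩ := Finset.mem_image.1 (Finset.mem_coe.1 hy)
        obtain ⟨x', hx', rfl⟩ := Finset.mem_image.1 (Finset.mem_coe.1 hy')
        have q1 := h1.2 (pp x) (cc x) (pp x') (cc x') hyy
          (by rw [← es x]; exact ns x) (by rw [← es x']; exact ns x')
          (by have := (hAi x hx).2.2.2; have := (hAi x' hx').2.2.2; omega)
        rw [q1.1, q1.2]
      · intro y hy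
        obtain ⟨x, hx, rfl⟩ := Finset.mem_image.1 hy
        show pp x * cc x ∈ S
        rw [← es x]
        exact (hAi x hx).1
    have b2 : ∑ y ∈ (A i).image cc ×ˢ (A i).image rr, U y ^ 2 ≤ ∑ t ∈ T, u t ^ 2 := by
      refine HA2_ind _ QU u (fun y => y.1⁻¹ * y.2) ?_ T ?_
      · intro y hy y' hy' hyy
        obtain ⟨x, hx, rfl⟩ := Finset.mem_image.1 (Finset.mem_coe.1 hy)
        obtain ⟨x', hx', rfl⟩ := Finset.mem_image.1 (Finset.mem_coe.1 hy')
        have q1 := h1.2 (cc x)⁻¹ (rr x) (cc x')⁻¹ (rr x') hyy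
          (by rw [← et x, FreeGroup.norm_inv_eq]; exact nt x)
          (by rw [← et x', FreeGroup.norm_inv_eq]; exact nt x')
          (by
            rw [FreeGroup.norm_inv_eq, FreeGroup.norm_inv_eq, (hAi x hx).2.2.1,
              (hAi x' hx').2.2.1])
        rw [inv_inj.1 q1.1, q1.2]
      · intro y hy
        obtain ⟨x, hx, rfl⟩ := Finset.mem_image.1 hy
        show (cc x)⁻¹ * rr x ∈ T
        rw [← et x]
        exact (hAi x hx).2.1
    have b3 : ∑ y ∈ (A i).image pp ×ˢ (A i).image rr, W y ^ 2 ≤ Z ^ 2 := by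
      refine le_trans (HA2_ind _ QW z (fun y => y.1 * y.2) ?_ (QW.image (fun y => y.1 * y.2))
        fun y hy => Finset.mem_image_of_mem _ hy) (hz2 _)
      intro y hy y' hy' hyy
      obtain ⟨x, hx, rfl⟩ := Finset.mem_image.1 (Finset.mem_coe.1 hy)
      obtain ⟨x', hx', rfl⟩ := Finset.mem_image.1 (Finset.mem_coe.1 hy')
      have q1 := h1.2 (pp x) (rr x) (pp x') (rr x') hyy
        (by rw [← est x]; exact nst x) (by rw [← est x']; exact nst x')
        (by have := (hAi x hx).2.2.2; have := (hAi x' hx').2.2.2; omega)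
      rw [q1.1, q1.2]
    rw [e1, e2]
    refine e3.trans ((HA2_tri _ _ _ F U W).trans ?_)
    have b3' : Real.sqrt (∑ y ∈ (A i).image pp ×ˢ (A i).image rr, W y ^ 2) ≤ Z :=
      Real.sqrt_le_iff.2 ⟨hZ, b3⟩
    exact mul_le_mul (mul_le_mul (Real.sqrt_le_sqrt b1) (Real.sqrt_le_sqrt b2)
      (Real.sqrt_nonneg _) (Real.sqrt_nonneg _)) b3' (Real.sqrt_nonneg _)
      (mul_nonneg (Real.sqrt_nonneg _) (Real.sqrt_nonneg _))
  -- sum over `i`
  have hsum : ∑ s ∈ S, ∑ t ∈ T, f s * u t * z (s * t) =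
      ∑ i ∈ Finset.range (k + 1), ∑ x ∈ A i, f x.1 * u x.2 * z (x.1 * x.2) := by
    rw [← Finset.sum_product']
    rw [hA]
    rw [Finset.sum_fiberwise_of_maps_to (g := fun x => (cc x).norm)
      (f := fun x : F2 × F2 => f x.1 * u x.2 * z (x.1 * x.2))]
    intro x hx
    have h2 := ns x
    rw [hSk _ (Finset.mem_product.1 hx).1] at h2
    rw [Finset.mem_range]
    omega
  rw [hsum]
  refine (Finset.sum_le_sum key).trans (le_of_eq ?_)
  rw [Finset.sum_const, Finset.card_range, nsmul_eq_mul]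
  push_cast
  ring

end Pool.Agent.RP
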