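import Pool.Agent.helper62.RP.Spec

set_option autoImplicit false

/-!
# Row rp:TRJ (MP_07c750_an)
-/

open Polynomial Filter
open Pool.Agent.QU

namespace Pool.Agent.RP

lemma TRJ_lift {N : ℕ} (σ : Fin 2 → Equiv.Perm (Fin N)) (L : List Ltr) :
    FreeGroup.lift σ (FreeGroup.mk L) = (L.map (sg σ)).prod := by
  rw [FreeGroup.lift_mk]
  congr 1
  refine List.map_congr_left fun l _ => ?_
  unfold sg
  cases l.2 <;> rfl

/-- products of the last factors -/
def TRJ_P {m N : ℕ} (g : Fin (m + 1) → Equiv.Perm (Fin N)) (j : ℕ) : Equiv.Perm (Fin N) :=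
  ((List.ofFn g).drop j).prod

lemma TRJ_P_last {m N : ℕ} (g : Fin (m + 1) → Equiv.Perm (Fin N)) : TRJ_P g (m + 1) = 1 := by
  unfold TRJ_P
  rw [List.drop_eq_nil_of_le (by simp), List.prod_nil]

lemma TRJ_P_succ {m N : ℕ} (g : Fin (m + 1) → Equiv.Perm (Fin N)) (j : ℕ) (hj : j < m + 1) :
    TRJ_P g j = g ⟨j, hj⟩ * TRJ_P g (j + 1) := by
  unfold TRJ_P
  rw [List.drop_eq_getElem_cons (by rw [List.length_ofFn]; exact hj), List.prod_cons,
    List.getElem_ofFn]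

/-- successor in `Fin (m + 1)` -/
lemma TRJ_ofNat (m j : ℕ) (hj : j < m + 1) :
    Fin.ofNat (m + 1) j = ⟨j, hj⟩ ∧ Fin.ofNat (m + 1) (j + 1) = ⟨j, hj⟩ + 1 := by
  constructor
  · ext
    simp [Fin.ofNat, Nat.mod_eq_of_lt hj]
  · ext
    simp [Fin.ofNat, Fin.val_add]

lemma TRJ_back {m N : ℕ} (g : Fin (m + 1) → Equiv.Perm (Fin N)) (t : Fin (m + 1) → Fin N)
    (ht : ∀ i, t i = g i (t (i + 1))) (d : ℕ) (hd : d ≤ m + 1) :
    TRJ_P g (m + 1 - d) (t 0) = t (Fin.ofNat (m + 1) (m + 1 - d)) := by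
  induction d with
  | zero =>
    rw [Nat.sub_zero, TRJ_P_last]
    have h1 : Fin.ofNat (m + 1) (m + 1) = 0 := by
      ext
      simp [Fin.ofNat]
    rw [h1]
    rfl
  | succ d ih =>
    have ih' := ih (by omega)
    have hj : m + 1 - (d + 1) < m + 1 := by omega
    have e1 : m + 1 - (d + 1) + 1 = m + 1 - d := by omega
    rw [TRJ_P_succ g _ hj, e1, Equiv.Perm.mul_apply, ih', (TRJ_ofNat m _ hj).1, ← e1,
      (TRJ_ofNat m _ hj).2]
    exact (ht _).symm

theorem TRJ : TRJ_stmt := by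
  intro n N _ w σ
  obtain ⟨m, rfl⟩ : ∃ m, n = m + 1 := ⟨n - 1, (Nat.succ_pred (NeZero.ne n)).symm⟩
  have h0 : FreeGroup.lift σ (FreeGroup.mk (List.ofFn w)) = TRJ_P (fun i => sg σ (w i)) 0 := by
    rw [TRJ_lift, List.map_ofFn]
    rfl
  have hback : ∀ t : Fin (m + 1) → Fin N, (∀ i, t i = sg σ (w i) (t (i + 1))) →
      ∀ j : Fin (m + 1), TRJ_P (fun i => sg σ (w i)) j (t 0) = t j := by
    intro t ht j
    have h1 := TRJ_back (fun i => sg σ (w i)) t ht (m + 1 - j) (by omega)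
    have h2 : m + 1 - (m + 1 - (j : ℕ)) = j := by have := j.2; omega
    rw [h2, (TRJ_ofNat m j j.2).1] at h1
    exact h1
  unfold fx
  rw [h0]
  refine Finset.card_bij' (fun i _ => fun j : Fin (m + 1) => TRJ_P (fun i => sg σ (w i)) j i)
    (fun t _ => t 0) ?_ ?_ ?_ ?_
  · intro i hi
    rw [Finset.mem_filter] at hi ⊢
    refine ⟨Finset.mem_univ _, fun j => ?_⟩
    show TRJ_P (fun i => sg σ (w i)) j i =
      sg σ (w j) (TRJ_P (fun i => sg σ (w i)) ((j + 1 : Fin (m + 1)) : ℕ) i)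
    rw [TRJ_P_succ _ _ j.2, Equiv.Perm.mul_apply]
    congr 1
    by_cases hj : j = Fin.last m
    · subst hj
      have e1 : (((Fin.last m + 1 : Fin (m + 1))) : ℕ) = 0 := by simp
      rw [e1, hi.2]
      show TRJ_P (fun i => sg σ (w i)) (m + 1) i = i
      rw [TRJ_P_last]
      rfl
    · have e1 : ((j + 1 : Fin (m + 1)) : ℕ) = j + 1 := Fin.val_add_one_of_lt (Fin.lt_last_iff_ne_last.2 hj)
      rw [e1]
  · intro t ht
    rw [Finset.mem_filter] at ht ⊢
    refine ⟨Finset.mem_univ _, ?_⟩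
    have h1 := hback t ht.2 0
    exact h1
  · intro i hi
    rw [Finset.mem_filter] at hi
    show TRJ_P (fun i => sg σ (w i)) ((0 : Fin (m + 1)) : ℕ) i = i
    exact hi.2
  · intro t ht
    rw [Finset.mem_filter] at ht
    funext j
    exact hback t ht.2 j

end Pool.Agent.RP
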